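import Pool.Agent.Helper84.INS.Main

set_option autoImplicit false

open MeasureTheory
open Pool.Agent.Helper84.INS

namespace Pool.Agent.Results.MP_1a0bc6_lc.Full

/-- Problem MP_1a0bc6_lc, Q1 has a negative answer: in every finite game the law of the play exists
and is unique for all strategies; and there are a game, an initial state, a target set `T` of player 1
and a safe set `F` of player 2 such that for each pair of stationary strategies one of the players
raises the own payoff by more than `1/100` by switching to a pure stationary strategy. -/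
theorem result :
    (∀ (G : Game) (σ : G.Strat1) (τ : G.Strat2) (s₀ : G.S),
      ∃! μ : Measure (ℕ → G.Stage), G.IsLaw σ τ s₀ μ) ∧
    ∃ (G : Game) (s₀ : G.S) (T F : Set G.S),
      Nat.card G.S = 7 ∧ (∀ s, Nat.card (G.A s) = 2 ∧ Nat.card (G.B s) = 2) ∧
      ∀ (σ : G.Strat1) (τ : G.Strat2), G.Stationary1 σ → G.Stationary2 τ →
        (∃ f : (s : G.S) → G.A s, ∀ μ μ', G.IsLaw σ τ s₀ μ → G.IsLaw (G.pure1 f) τ s₀ μ' →
          (μ {ω | ∃ n, (ω n).s ∈ T}).toReal + 1 / 100 < (μ' {ω | ∃ n, (ω n).s ∈ T}).toReal) ∨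
        (∃ g : (s : G.S) → G.B s, ∀ μ μ', G.IsLaw σ τ s₀ μ → G.IsLaw σ (G.pure2 g) s₀ μ' →
          (μ {ω | ∀ n, (ω n).s ∈ F}).toReal + 1 / 100 < (μ' {ω | ∀ n, (ω n).s ∈ F}).toReal) := by
  refine ⟨fun G σ τ s₀ => ⟨play σ τ s₀, play_isLaw σ τ s₀, fun μ hμ =>
    law_unique hμ (play_isLaw σ τ s₀)⟩, ?_⟩
  refine ⟨G7, (0 : Fin 7), Helper70.tgt, Helper70.unsᶜ, ?_, ?_, main⟩
  · change Nat.card (Fin 7) = 7
    simp
  · intro s
    change Nat.card Bool = 2 ∧ Nat.card Bool = 2
    simp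

end Pool.Agent.Results.MP_1a0bc6_lc.Full
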